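import Mathlib
import Pool.Agent.Lib.helper12.AV

namespace Pool.Agent.Results.MP_82b5c7_al.Counter

open Pool.Agent.Lib.helper12.AV Finset

noncomputable def N (G : Type) [Group G] {r : ℕ} (w : FreeGroup (Fin r)) (g : G) : ℕ :=
  Nat.card {x : Fin r → G // FreeGroup.lift x w = g}

noncomputable def inner (G : Type) [Fintype G] (f χ : G → ℂ) : ℂ :=
  (Fintype.card G : ℂ)⁻¹ * ∑ g, f g * star (χ g)

def SR (G : Type) [Group G] [Fintype G] : Prop :=
  ∀ (r : ℕ), 1 ≤ r → ∀ (w : FreeGroup (Fin r)) (V : Type) [AddCommGroup V] [Module ℂ V]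
    [FiniteDimensional ℂ V] (ρ : Representation ℂ G V), ρ.IsIrreducible →
    ∃ z : ℤ, inner G (fun g => (N G w g : ℂ)) ρ.character = z

theorem sr_of {G : Type} [Group G] [Fintype G] (h : ∀ (r : ℕ) (w : FreeGroup (Fin r)) (g k : G),
    Subgroup.zpowers g = Subgroup.zpowers k → N G w g = N G w k) : SR G := by
  intro r hr w V _ _ _ ρ _
  obtain ⟨z, hz⟩ := rat_sum ρ (N G w) (h r w)
  have h1 := integral_rep ρ hr w
  rw [← sum_count] at h1
  have h3 : (Nat.card G : ℂ) ≠ 0 := by exact_mod_cast Nat.card_pos.ne'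
  obtain ⟨n, hn⟩ := int_of_rat h1 (a := z) (b := Nat.card G)
    (by exact_mod_cast Nat.card_pos.ne') (by
      rw [← hz]; push_cast; rw [mul_inv_cancel_left₀ h3]; rfl)
  refine ⟨n, ?_⟩
  rw [← star_inj, inner, ← Nat.card_eq_fintype_card]
  simpa [N, mul_comm] using hn

@[ext] structure T where
  s : ZMod 9
  t : ZMod 27
  deriving DecidableEq

def π : ZMod 27 →+* ZMod 9 := ZMod.castHom (by norm_num) _

instance : Fintype T := Fintype.ofEquiv (ZMod 9 × ZMod 27)
  ⟨fun x => ⟨x.1, x.2⟩, fun x => (x.s, x.t), fun _ => rfl, fun _ => rfl⟩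

instance : Mul T := ⟨fun x y => ⟨x.s + y.s + 3 * π x.t * y.s, x.t + y.t⟩⟩
instance : One T := ⟨⟨0, 0⟩⟩
instance : Inv T := ⟨fun x => ⟨-x.s + 3 * π x.t * x.s, -x.t⟩⟩

theorem mul_s (x y : T) : (x * y).s = x.s + y.s + 3 * π x.t * y.s := rfl
theorem mul_t (x y : T) : (x * y).t = x.t + y.t := rfl
theorem inv_s (x : T) : x⁻¹.s = -x.s + 3 * π x.t * x.s := rfl
theorem inv_t (x : T) : x⁻¹.t = -x.t := rfl
theorem one_s : (1 : T).s = 0 := rfl
theorem one_t : (1 : T).t = 0 := rfl
theorem nine : (9 : ZMod 9) = 0 := rfl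

instance : Group T := Group.ofLeftAxioms
  (fun x y z => by
    ext
    · simp only [mul_s, mul_t, map_add]
      linear_combination (-(π x.t * π y.t * z.s)) * nine
    · simp only [mul_t]; ring)
  (fun x => by ext <;> simp [mul_s, mul_t, one_s, one_t])
  (fun x => by ext <;> simp [mul_s, mul_t, inv_s, inv_t, one_s, one_t])

theorem pow_eq (g : T) (n : ℕ) :
    g ^ n = ⟨(n + 3 * π g.t * (n.choose 2 : ℕ)) * g.s, n * g.t⟩ := by
  induction n with
  | zero => ext <;> simp [one_s, one_t]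
  | succ n ih =>
    rw [pow_succ, ih]
    ext
    · simp only [mul_s, map_mul, map_natCast, Nat.choose_succ_succ' n 1, Nat.choose_one_right]
      push_cast; ring
    · simp only [mul_t]; push_cast; ring

variable {r : ℕ}

theorem nf (w : FreeGroup (Fin r)) : ∃ (e : Fin r → ZMod 27) (C : Fin r → Fin r → ZMod 9),
    (∀ i j, C i j + C j i = π (e i) * π (e j) - if i = j then π (e i) else 0) ∧
    ∀ x : Fin r → T, (FreeGroup.lift x w).s = ∑ j, (π (e j) + 3 * ∑ i, C i j * π (x i).t) * (x j).s ∧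
      (FreeGroup.lift x w).t = ∑ i, e i * (x i).t := by
  have key : ∀ (e e' : Fin r → ZMod 27) (C' : Fin r → Fin r → ZMod 9) (x : Fin r → T),
      3 * π (∑ i, e i * (x i).t) * ∑ j, (π (e' j) + 3 * ∑ i, C' i j * π (x i).t) * (x j).s =
        ∑ j, (3 * ∑ i, π (e i) * π (e' j) * π (x i).t) * (x j).s := by
    intro e e' C' x
    rw [Finset.mul_sum]
    refine Finset.sum_congr rfl fun j _ => ?_
    simp only [map_sum, map_mul, mul_right_comm _ (π (e' j)), ← Finset.sum_mul]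
    linear_combination ((∑ i, π (e i) * π (x i).t) * (∑ i, C' i j * π (x i).t) * (x j).s) * nine
  induction w using FreeGroup.induction_on with
  | C1 => exact ⟨0, 0, by simp, by simp [one_s, one_t]⟩
  | of k =>
    refine ⟨Pi.single k 1, 0, fun i j => ?_, fun x => ?_⟩
    · clear key
      by_cases h : i = k <;> by_cases h' : j = k <;> simp_all [eq_comm]
    · simp [Pi.single_apply, apply_ite π]
  | inv_of k h =>
    obtain ⟨e, C, h1, h2⟩ := h
    refine ⟨-e, fun i j => π (e i) * π (e j) - C i j, fun i j => ?_, fun x => ?_⟩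
    · have := h1 i j
      simp only [Pi.neg_apply, map_neg]
      split_ifs at this ⊢ <;> linear_combination -this
    · rw [map_inv, inv_s, inv_t, (h2 x).1, (h2 x).2, key]
      simp only [Pi.neg_apply, map_neg, neg_mul, sum_neg_distrib, and_true, sub_mul,
        sum_sub_distrib, ← sum_neg_distrib, ← sum_add_distrib]
      exact Finset.sum_congr rfl fun j _ => by ring
  | mul u v hu hv =>
    obtain ⟨e, C, h1, h2⟩ := hu
    obtain ⟨e', C', h1', h2'⟩ := hv
    refine ⟨e + e', fun i j => C i j + C' i j + π (e i) * π (e' j), fun i j => ?_, fun x => ?_⟩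
    · have a1 := h1 i j
      have a2 := h1' i j
      simp only [Pi.add_apply, map_add]
      split_ifs at a1 a2 ⊢ <;> linear_combination a1 + a2
    · rw [map_mul, mul_s, mul_t, (h2 x).1, (h2 x).2, (h2' x).1, (h2' x).2, key]
      simp only [Pi.add_apply, map_add, add_mul, sum_add_distrib, and_true, mul_add]
      ring

def φ (L : Fin r → ZMod 9) : (Fin r → ZMod 9) →+ ZMod 9 where
  toFun s := ∑ j, L j * s j
  map_zero' := by simp
  map_add' := by simp [mul_add, sum_add_distrib]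

theorem cnt_eq {L L' : Fin r → ZMod 9} (h : (φ L).range = (φ L').range) (σ : ZMod 9) :
    Nat.card {s // φ L s = σ} = Nat.card {s // φ L' s = σ} := by
  have e : ∀ f : (Fin r → ZMod 9) →+ ZMod 9, σ ∈ f.range →
      Nat.card {s // f s = σ} * Nat.card f.range = Nat.card (Fin r → ZMod 9) := by
    rintro f ⟨s, rfl⟩
    rw [← f.ker.card_mul_index, AddSubgroup.index_ker]
    congr 1
    exact Nat.card_congr ((Equiv.subRight s).subtypeEquiv fun a => by
      simp [AddMonoidHom.mem_ker, sub_eq_zero])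
  by_cases hσ : σ ∈ (φ L).range
  · exact Nat.eq_of_mul_eq_mul_right Nat.card_pos ((e _ hσ).trans (h ▸ (e _ (h ▸ hσ)).symm))
  · have h1 : IsEmpty {s // φ L s = σ} := ⟨fun s => hσ ⟨_, s.2⟩⟩
    have h2 : IsEmpty {s // φ L' s = σ} := ⟨fun s => hσ (h ▸ ⟨_, s.2⟩)⟩
    simp

theorem range_le {L L' : Fin r → ZMod 9} (h : ∀ j, ∃ i c, L j = L' i * c) :
    (φ L).range ≤ (φ L').range := by
  rintro _ ⟨s, rfl⟩
  show ∑ j, L j * s j ∈ (φ L').range
  refine sum_mem fun j _ => ?_
  obtain ⟨i, c, e⟩ := h j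
  exact ⟨Pi.single i (c * s j), by simp [φ, Pi.single_apply, e, mul_assoc]⟩

theorem d1 : ∀ a c b : ZMod 9, 3 * a ≠ 0 → ∃ d, b = (a + 3 * c) * d := by decide +kernel
theorem d2 : ∀ a b : ZMod 9, a ≠ 0 → 3 * b = 0 → ∃ d, b = a * d := by decide +kernel
theorem d3 : ∀ e d : ZMod 27, π e ≠ 0 → π d = 0 → ∃ v, 3 * π v = 0 ∧ e * v = d := by
  decide +kernel

theorem scale (w : FreeGroup (Fin r)) (σ : ZMod 9) (τ : ZMod 27) (u : (ZMod 9)ˣ)
    (k : (ZMod 27)ˣ) : N T w ⟨σ, τ⟩ = N T w ⟨u * σ, k * τ⟩ := by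
  classical
  obtain ⟨e, C, h1, h2⟩ := nf w
  let L : (Fin r → ZMod 27) → Fin r → ZMod 9 := fun t j => π (e j) + 3 * ∑ i, C i j * π (t i)
  have hN : ∀ σ τ, N T w ⟨σ, τ⟩ =
      ∑ t : {t : Fin r → ZMod 27 // ∑ i, e i * t i = τ}, Nat.card {s // φ (L t) s = σ} := by
    intro σ τ
    rw [← Nat.card_sigma]
    exact Nat.card_congr
      { toFun := fun x => ⟨⟨fun i => (x.1 i).t, by rw [← (h2 _).2, x.2]⟩, fun i => (x.1 i).s,
          (h2 _).1.symm.trans (congrArg T.s x.2)⟩
        invFun := fun y => ⟨fun i => ⟨y.2.1 i, y.1.1 i⟩, T.ext ((h2 _).1.trans y.2.2)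
          ((h2 _).2.trans y.1.2)⟩
        left_inv := fun _ => rfl
        right_inv := fun _ => rfl }
  have hu : ∀ L : Fin r → ZMod 9, Nat.card {s // φ L s = σ} = Nat.card {s // φ L s = u * σ} :=
    fun L => Nat.card_congr ((MulAction.toPerm u).subtypeEquiv fun s => by
      simp [φ, Units.smul_def, mul_left_comm _ (u : ZMod 9), ← Finset.mul_sum])
  rw [hN, hN]
  simp only [← hu]
  have hk : (∀ t, ∑ i, e i * t i = τ → (φ (L t)).range = (φ (L (k • t))).range) →
      ∑ t : {t : Fin r → ZMod 27 // ∑ i, e i * t i = τ}, Nat.card {s // φ (L t) s = σ} =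
      ∑ t : {t : Fin r → ZMod 27 // ∑ i, e i * t i = k * τ}, Nat.card {s // φ (L t) s = σ} :=
    fun h => Fintype.sum_equiv ((MulAction.toPerm k).subtypeEquiv fun t => by
      simp [Units.smul_def, mul_left_comm _ (k : ZMod 27), ← Finset.mul_sum]) _ _
      fun t => cnt_eq (h _ t.2) σ
  by_cases hA : ∃ i, 3 * π (e i) ≠ 0
  · obtain ⟨i, hi⟩ := hA
    exact hk fun t _ => le_antisymm (range_le fun j => ⟨i, d1 _ _ _ hi⟩)
      (range_le fun j => ⟨i, d1 _ _ _ hi⟩)
  push Not at hA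
  by_cases hB : ∀ i, π (e i) = 0
  · have : ∀ (k : (ZMod 27)ˣ) t, (φ (L (k • t))).range ≤ (φ (L t)).range := fun k t =>
      range_le fun j => ⟨j, π k, by
        simp [L, hB, Units.smul_def, mul_left_comm _ (π k), ← Finset.mul_sum]; ring⟩
    exact hk fun t _ => le_antisymm (by simpa using this k⁻¹ (k • t)) (this k t)
  push Not at hB
  obtain ⟨i0, hi0⟩ := hB
  by_cases hτ : π τ = 0
  · obtain ⟨v, hv, hv'⟩ := d3 (e i0) (k * τ - τ) hi0 (by simp [hτ])
    refine Fintype.sum_equiv ((Equiv.addRight (Pi.single i0 v)).subtypeEquiv fun t => by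
      simp [mul_add, sum_add_distrib, Pi.single_apply, hv', ← eq_sub_iff_add_eq]) _ _ fun t => ?_
    have : L (t.1 + Pi.single i0 v) = L t := by
      funext j
      simp only [L, Pi.add_apply, map_add, mul_add, sum_add_distrib, Pi.single_apply,
        apply_ite π, map_zero, mul_ite, mul_zero, sum_ite_eq', mem_univ, if_true]
      linear_combination C i0 j * hv
    exact congrArg (fun L => Nat.card {s // φ L s = σ}) this.symm
  · have h3 : ∀ t j, 3 * L t j = 0 := fun t j => by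
      simp only [L]
      linear_combination hA j + (∑ i, C i j * π (t i)) * nine
    have h4 : ∀ t, π (∑ i, e i * t i) ≠ 0 → ∃ j, L t j ≠ 0 := fun t ht => by
      by_contra h
      push Not at h
      apply ht
      have e1 : π (∑ i, e i * t i) + 3 * ∑ j, ∑ i, C i j * π (t i) * π (t j) = 0 := by
        rw [map_sum, Finset.mul_sum, ← sum_add_distrib]
        refine sum_eq_zero fun j _ => ?_
        rw [← Finset.sum_mul, map_mul]
        linear_combination π (t j) * h j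
      have e2 : 3 * (∑ j, ∑ i, C i j * π (t i) * π (t j) + ∑ j, ∑ i, C i j * π (t i) * π (t j)) = 0 := by
        nth_rewrite 2 [Finset.sum_comm]
        simp only [← sum_add_distrib, Finset.mul_sum]
        refine sum_eq_zero fun j _ => sum_eq_zero fun i _ => ?_
        have := h1 i j
        split_ifs at this
        · linear_combination 3 * π (t i) * π (t j) * this +
            π (t i) * π (t j) * (π (e j) - 1) * hA i
        · linear_combination 3 * π (t i) * π (t j) * this + π (t i) * π (t j) * π (e j) * hA i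
      linear_combination e1 + e2 - (∑ j, ∑ i, C i j * π (t i) * π (t j)) * nine
    refine hk fun t ht => ?_
    obtain ⟨i, hi⟩ := h4 t (ht ▸ hτ)
    obtain ⟨i', hi'⟩ := h4 (k • t) (by
      simp only [Pi.smul_apply, Units.smul_def, smul_eq_mul, mul_left_comm _ (k : ZMod 27),
        ← Finset.mul_sum, ht, map_mul]
      exact fun h => hτ ((k.isUnit.map π).mul_right_eq_zero.1 h))
    exact le_antisymm (range_le fun j => ⟨i', d2 _ _ hi' (h3 _ _)⟩)
      (range_le fun j => ⟨i, d2 _ _ hi (h3 _ _)⟩)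

theorem d4 (a : ZMod 27) (c : ZMod 9) (h : 9 * a ≠ 0) : IsUnit a ∧ IsUnit (π a + 3 * c) := by
  have h1 : ∀ a : ZMod 27, 9 * a ≠ 0 → a ^ 18 = 1 ∧ 3 * π a ≠ 0 := by decide +kernel
  obtain ⟨d, hd⟩ := d1 (π a) c 1 (h1 a h).2
  exact ⟨IsUnit.of_pow_eq_one (h1 a h).1 (by norm_num), IsUnit.of_mul_eq_one d hd.symm⟩

theorem d5 (i j : ZMod 9) (k l : ZMod 27) (h1 : k + l = 4 * l + k)
    (h2 : j + i + 3 * π k * i = (4 + 3 * π l * 6) * i + j + 3 * π (4 * l) * j)
    (h3 : (3 + 3 * π l * 3) * i = 0 → 3 * l ≠ 0) : 9 * k = 9 := by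
  have a1 : 3 * l = 0 := by linear_combination -h1
  have a2 : ∀ l : ZMod 27, 3 * l = 0 → π l = 0 := by decide +kernel
  have a3 : ∀ (k : ZMod 27) (i : ZMod 9), 3 * π k * i = 3 * i → 3 * i ≠ 0 → 9 * k = 9 := by
    decide +kernel
  rw [map_mul, a2 l a1] at h2
  rw [a2 l a1] at h3
  exact a3 k i (by linear_combination h2) fun h => h3 (by linear_combination h) a1

theorem result : ∃ (G : Type) (_ : Group G) (_ : Fintype G), SR G ∧
    ∃ z : G, 3 ≤ orderOf z ∧ ∀ α : G ≃* G, α z = z := by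
  refine ⟨T, inferInstance, inferInstance, sr_of fun r w g h e => ?_, ⟨0, 9⟩, ?_, fun α => ?_⟩
  · by_cases hg : g = 1
    · subst hg
      rw [Subgroup.zpowers_one_eq_bot, eq_comm, Subgroup.zpowers_eq_bot] at e
      rw [e]
    obtain ⟨j, rfl⟩ := mem_powers_iff_mem_zpowers.2 (e ▸ Subgroup.mem_zpowers h : h ∈ Subgroup.zpowers g)
    have h1 : j.gcd (orderOf g) = 1 := mem_zpowers_pow_iff.1 (e ▸ Subgroup.mem_zpowers g)
    have h2 : orderOf g ∣ 3 ^ 3 := orderOf_dvd_of_pow_eq_one (by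
      rw [pow_eq]
      ext
      · show ((27 : ℕ) + 3 * π g.t * (351 : ℕ)) * g.s = 0
        push_cast
        linear_combination (3 + 117 * π g.t) * g.s * nine
      · show ((27 : ℕ) : ZMod 27) * g.t = 0
        rw [ZMod.natCast_self, zero_mul])
    have h3 : 9 * (j : ZMod 27) ≠ 0 := fun h => by
      have h4 : 27 ∣ 9 * j := (ZMod.natCast_eq_zero_iff _ _).1 (by simpa using h)
      obtain ⟨i, -, hi⟩ := (Nat.dvd_prime_pow Nat.prime_three).1 h2
      rcases i with _ | i
      · exact hg (orderOf_eq_one_iff.1 hi)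
      · have : 3 ∣ j.gcd (orderOf g) := Nat.dvd_gcd (by omega) (hi ▸ Dvd.intro_left _ (pow_succ _ _).symm)
        omega
    obtain ⟨⟨k, hk⟩, u, hu⟩ := d4 j (π g.t * (j.choose 2 : ℕ)) h3
    simp only
    rw [pow_eq, scale w g.s g.t u k, hu, hk, map_natCast, mul_assoc]
  · rw [orderOf_eq_prime (p := 3) (hp := ⟨Nat.prime_three⟩) (by rw [pow_eq]; decide) (by decide)]
  · have h1 : (⟨0, 1⟩ : T) * ⟨1, 0⟩ = ⟨1, 0⟩ ^ 4 * ⟨0, 1⟩ := by rw [pow_eq]; decide
    have h2 : (⟨1, 0⟩ : T) ^ 3 ≠ 1 := by rw [pow_eq]; decide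
    have h3 : (⟨0, 9⟩ : T) = ⟨0, 1⟩ ^ 9 := by rw [pow_eq]; decide
    have h4 := congrArg α h1
    have h5 : α ⟨1, 0⟩ ^ 3 ≠ 1 := by rwa [← map_pow, Ne, EmbeddingLike.map_eq_one_iff]
    rw [map_mul, map_mul, map_pow, pow_eq, T.ext_iff] at h4
    rw [pow_eq, Ne, T.ext_iff, not_and] at h5
    have := d5 _ _ _ _ h4.2 h4.1 h5
    conv_lhs => rw [h3, map_pow, pow_eq]
    ext
    · show ((9 : ℕ) + 3 * π _ * (36 : ℕ)) * _ = 0
      push_cast
      linear_combination (1 + 12 * π (α ⟨0, 1⟩).t) * (α ⟨0, 1⟩).s * nine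
    · exact this

end Pool.Agent.Results.MP_82b5c7_al.Counter
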